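import Pool.Agent.W247.ET.Stm

set_option autoImplicit false

open Finset

namespace Pool.Agent.W381.ET.MS

open Pool.Agent.W247.ET

lemma stepV (s : ℕ → ℝ) (K : ℝ) (hs : ∀ n, 0 ≤ s n ∧ s n ≤ K) (L : ℕ) :
    -K ≤ ∑ n ∈ Icc 1 L, s (n + 1) / n - ∑ n ∈ Icc 1 L, s n / n - s (L + 1) / ((L : ℝ) + 1) ∧
    ∑ n ∈ Icc 1 L, s (n + 1) / n - ∑ n ∈ Icc 1 L, s n / n - s (L + 1) / ((L : ℝ) + 1) ≤
      K * (1 - 1 / ((L : ℝ) + 1)) := by
  induction L with
  | zero =>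
    have h := hs 1
    simp
    constructor <;> linarith
  | succ L ih =>
    rw [Finset.sum_Icc_succ_top (by omega), Finset.sum_Icc_succ_top (by omega)]
    have h2 := hs (L + 1 + 1)
    have hL : (0 : ℝ) < (L : ℝ) + 1 := by positivity
    have hL2 : (0 : ℝ) < (L : ℝ) + 1 + 1 := by positivity
    push_cast
    have hd : 0 ≤ 1 / ((L : ℝ) + 1) - 1 / ((L : ℝ) + 1 + 1) := by
      rw [sub_nonneg]
      exact one_div_le_one_div_of_le hL (by linarith)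
    have e1 : s (L + 1 + 1) / ((L : ℝ) + 1) = s (L + 1 + 1) * (1 / ((L : ℝ) + 1)) := by ring
    have e2 : s (L + 1 + 1) / ((L : ℝ) + 1 + 1) = s (L + 1 + 1) * (1 / ((L : ℝ) + 1 + 1)) := by
      ring
    have h3 : 0 ≤ s (L + 1 + 1) * (1 / ((L : ℝ) + 1) - 1 / ((L : ℝ) + 1 + 1)) :=
      mul_nonneg h2.1 hd
    have h4 : s (L + 1 + 1) * (1 / ((L : ℝ) + 1) - 1 / ((L : ℝ) + 1 + 1)) ≤
        K * (1 / ((L : ℝ) + 1) - 1 / ((L : ℝ) + 1 + 1)) :=
      mul_le_mul_of_nonneg_right h2.2 hd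
    rw [mul_sub] at h3 h4
    rw [e1, e2]
    constructor
    · linarith [ih.1]
    · nlinarith [ih.2]

lemma stepU (s : ℕ → ℝ) (K : ℝ) (hs : ∀ n, 0 ≤ s n ∧ s n ≤ K) (L : ℕ) :
    |∑ n ∈ Icc 1 L, s (n + 1) / n - ∑ n ∈ Icc 1 L, s n / n| ≤ K := by
  have h := stepV s K hs L
  have h2 := hs (L + 1)
  have hL : (0 : ℝ) < (L : ℝ) + 1 := by positivity
  have h3 : 0 ≤ s (L + 1) / ((L : ℝ) + 1) := div_nonneg h2.1 hL.le
  have h4 : s (L + 1) / ((L : ℝ) + 1) ≤ K * (1 / ((L : ℝ) + 1)) := by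
    rw [mul_one_div]
    exact div_le_div_of_nonneg_right h2.2 hL.le
  rw [abs_le]
  constructor
  · linarith [h.1]
  · have := h.2
    rw [mul_sub] at this
    linarith

lemma stepI (r : ℕ → ℝ) (K : ℝ) (hr : ∀ n, 0 ≤ r n ∧ r n ≤ K) (L i : ℕ) :
    |∑ n ∈ Icc 1 L, r (n + i) / n - ∑ n ∈ Icc 1 L, r n / n| ≤ i * K := by
  induction i with
  | zero => simp
  | succ i ih =>
    have h := stepU (fun n => r (n + i)) K (fun n => hr (n + i)) L
    have e : ∑ n ∈ Icc 1 L, r (n + (i + 1)) / (n : ℝ) - ∑ n ∈ Icc 1 L, r n / n =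
        (∑ n ∈ Icc 1 L, r (n + 1 + i) / (n : ℝ) - ∑ n ∈ Icc 1 L, r (n + i) / n) +
        (∑ n ∈ Icc 1 L, r (n + i) / n - ∑ n ∈ Icc 1 L, r n / n) := by
      have : ∑ n ∈ Icc 1 L, r (n + (i + 1)) / (n : ℝ) = ∑ n ∈ Icc 1 L, r (n + 1 + i) / (n : ℝ) := by
        refine Finset.sum_congr rfl fun n _ => ?_
        rw [show n + (i + 1) = n + 1 + i by ring]
      rw [this]; ring
    rw [e]
    refine (abs_add_le _ _).trans ?_
    push_cast
    linarith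

theorem main : MS_stmt := by
  intro K J hJ
  refine ⟨J * K, fun r L hr _ => ?_⟩
  have hJ0 : (0 : ℝ) < J := by exact_mod_cast hJ
  have e1 : ∑ n ∈ Icc 1 L, Mw r J n / n =
      (∑ i ∈ range J, ∑ n ∈ Icc 1 L, r (n + i) / n) / J := by
    unfold Mw
    rw [Finset.sum_comm, Finset.sum_div]
    refine Finset.sum_congr rfl fun n _ => ?_
    rw [← Finset.sum_div]
    ring
  have e2 : ∑ n ∈ Icc 1 L, r n / (n : ℝ) = (∑ i ∈ range J, ∑ n ∈ Icc 1 L, r n / (n : ℝ)) / J := by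
    rw [Finset.sum_const, card_range, nsmul_eq_mul]
    field_simp
  rw [e1, e2, ← sub_div, ← Finset.sum_sub_distrib, abs_div, abs_of_pos hJ0, div_le_iff₀ hJ0]
  refine (Finset.abs_sum_le_sum_abs _ _).trans ?_
  have hK : (0 : ℝ) ≤ K := Nat.cast_nonneg K
  calc ∑ i ∈ range J, |∑ n ∈ Icc 1 L, r (n + i) / n - ∑ n ∈ Icc 1 L, r n / n|
      ≤ ∑ i ∈ range J, (J : ℝ) * K := by
        refine Finset.sum_le_sum fun i hi => (stepI r K hr L i).trans ?_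
        have : (i : ℝ) ≤ J := by exact_mod_cast (Finset.mem_range.1 hi).le
        exact mul_le_mul_of_nonneg_right this hK
    _ = J * K * J := by rw [Finset.sum_const, card_range, nsmul_eq_mul]; ring

end Pool.Agent.W381.ET.MS
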